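import Pool.Agent.Helper66_ML.Stmts2
import Pool.Agent.Helper83_WRA.LabSum

/-!
# Squad ML, row ALB
-/

open scoped BigOperators

noncomputable section

namespace Pool.Agent.PP.ML.H62

open Pool.Agent.Helper51_AWC Pool.Agent.Helper79_WRA Pool.Agent.PP Pool.Agent.Helper98_CC
open Pool.Agent.PP.ML

theorem sum_lab {M : Ideal (integralClosure ℤ ℂ)} {G : Type} [Group G] [Finite G]
    (H : Subgroup G) {χ : G → ℂ} (hχ : χ ∈ Irr G) :
    (∑ᶠ (a : G → ℂ) (_ : a ∈ IrrS H),
      (open Classical in if labF M a = labF M χ then (1 : ℂ) else 0)) =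
      ((IrrBlock M H.subtype χ).ncard : ℂ) := by
  classical
  rw [← Pool.Agent.Helper79_WRA.H83.ncard_label H hχ,
    finsum_mem_eq_finite_toFinset_sum _ (IrrS_finite H)]
  have h1 : {a | a ∈ IrrS H ∧ labF M a = labF M χ} =
      (((IrrS_finite H).toFinset.filter fun a => labF M a = labF M χ : Finset (G → ℂ)) :
        Set (G → ℂ)) := by
    ext a
    simp
  rw [h1, Set.ncard_coe_finset, Finset.sum_boole]

theorem alb : AlbStmt := by
  intro ℓ _ M _ _ G _ _ _ χ hχ
  classical
  haveI : Finite (PChain ℓ G) := inferInstance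
  haveI := Fintype.ofFinite (Quotient (chainSetoid ℓ G))
  rw [altSum, altF, finsum_eq_sum_of_fintype, finsum_eq_sum_of_fintype]
  push_cast
  refine Finset.sum_congr rfl fun q _ => ?_
  have h := sum_lab (M := M) (stab q.out.mem) hχ
  rw [← h]

end Pool.Agent.PP.ML.H62
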