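import Pool.Agent.Helper66_ML.Stmts2

/-!
# Squad ML, rows CHP and ORD
-/

open scoped BigOperators

noncomputable section

namespace Pool.Agent.PP.ML.H62

open Pool.Agent.Helper51_AWC Pool.Agent.Helper79_WRA Pool.Agent.PP Pool.Agent.Helper98_CC
open Pool.Agent.PP.ML

theorem chp : ChpStmt2 := by
  intro ℓ _ H _ _ f hf hfW s hs i
  classical
  haveI : Fintype (ConjClasses H) := Fintype.ofFinite _
  haveI hfin : Fintype (Irr H) := Fintype.subtype s hs
  have h1 := H50.charpoly_NN (H := H) (a := f) hf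
  have h2 : ∏ χ ∈ s, (Polynomial.X - Polynomial.C (H50.om f χ)) =
      ∏ χ : Irr H, (Polynomial.X - Polynomial.C (H50.om f χ)) :=
    Finset.prod_subtype s hs _
  rw [h2, ← h1]
  have h3 : (H50.NN (fun x => (⟨f x, hfW x⟩ : W0 ℓ))).map (W0 ℓ).subtype = H50.NN f := by
    rw [H50.NN_map]
    rfl
  rw [← h3]
  have h4 := Matrix.charpoly_map (H50.NN (fun x => (⟨f x, hfW x⟩ : W0 ℓ))) (W0 ℓ).subtype
  rw [h4, Polynomial.coeff_map]
  exact SetLike.coe_mem _

theorem ord : OrdStmt := by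
  intro ℓ hp M hM hℓ w hw
  haveI : M.IsPrime := Ideal.IsMaximal.isPrime hM
  haveI : IsDomain (FF M) := Ideal.Quotient.isDomain M
  have h0 : ((ℓ : ℕ) : FF M) = 0 := by
    have := (Ideal.Quotient.eq_zero_iff_mem (I := M)).2 hℓ
    rw [map_natCast] at this
    exact this
  have hrc : ringChar (FF M) = ℓ := CharP.ringChar_of_prime_eq_zero hp.out h0
  haveI : CharP (FF M) ℓ := ringChar.of_eq hrc
  letI : Algebra (ZMod ℓ) (FF M) := ZMod.algebra (FF M) ℓ
  have hint : IsIntegral ℤ w := by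
    obtain ⟨z, rfl⟩ := Ideal.Quotient.mk_surjective w
    have hz : IsIntegral ℤ z := integralClosure.isIntegral z
    exact map_isIntegral_int (Ideal.Quotient.mk M) hz
  have : IsScalarTower ℤ (ZMod ℓ) (FF M) :=
    IsScalarTower.of_algebraMap_eq' (Subsingleton.elim _ _)
  have hint2 : IsIntegral (ZMod ℓ) w := IsIntegral.tower_top hint
  haveI : Module.Finite (ZMod ℓ) (Algebra.adjoin (ZMod ℓ) {w}) :=
    ⟨(Submodule.fg_top _).2 hint2.fg_adjoin_singleton⟩
  haveI : Finite (Algebra.adjoin (ZMod ℓ) {w}) := Module.finite_of_finite (ZMod ℓ)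
  have hmem : w ∈ Algebra.adjoin (ZMod ℓ) {w} := Algebra.self_mem_adjoin_singleton _ _
  obtain ⟨m, n, hmn, he⟩ := Finite.exists_ne_map_eq_of_infinite
    (fun n : ℕ => (⟨w, hmem⟩ : Algebra.adjoin (ZMod ℓ) {w}) ^ n)
  have he' : w ^ m = w ^ n := by
    have := congrArg Subtype.val he
    simpa using this
  have key : ∀ m n : ℕ, m < n → w ^ m = w ^ n → ∃ E : ℕ, 0 < E ∧ w ^ E = 1 := by
    intro m n h1 h2
    refine ⟨n - m, Nat.sub_pos_of_lt h1, ?_⟩
    have h3 : w ^ m * w ^ (n - m) = w ^ m * 1 := by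
      rw [← pow_add, Nat.add_sub_cancel' h1.le, mul_one, h2]
    exact mul_left_cancel₀ (pow_ne_zero m hw) h3
  rcases lt_or_gt_of_ne hmn with h | h
  · exact key m n h he'
  · exact key n m h he'.symm

end Pool.Agent.PP.ML.H62
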